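import Pool.Agent.H645R3.TM4

set_option autoImplicit false

open Filter Topology

namespace Pool.Agent.Results.MP_a4feb0_gt.PrecompactSolvable

/-- `G` is minimal: no strictly coarser Hausdorff group topology. -/
def Minimal (G : Type) [Group G] [τ : TopologicalSpace G] : Prop :=
  ∀ σ : TopologicalSpace G, τ ≤ σ → @IsTopologicalGroup G σ _ → @T2Space G σ → σ = τ

/-- `G` is totally minimal: every quotient by a closed normal subgroup is minimal. -/
def TotallyMinimal (G : Type) [Group G] [TopologicalSpace G] [IsTopologicalGroup G] : Prop :=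
  ∀ N : Subgroup G, [N.Normal] → IsClosed (N : Set G) → Minimal (G ⧸ N)

/-- `G` is precompact: finitely many left translates of each neighbourhood of the identity
cover `G`. -/
def Precompact (G : Type) [Group G] [TopologicalSpace G] : Prop :=
  ∀ U ∈ 𝓝 (1 : G), ∃ F : Finset G, ∀ x : G, ∃ g ∈ F, ∃ u ∈ U, x = g * u

/-- countable tightness -/
def CountablyTight (X : Type) [TopologicalSpace X] : Prop :=
  ∀ A : Set X, ∀ x ∈ closure A, ∃ B ⊆ A, B.Countable ∧ x ∈ closure B

/-- Q2, answered positively: every Hausdorff totally minimal, precompact, solvable topological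
group of countable tightness is metrizable. -/
theorem result (G : Type) [Group G] [TopologicalSpace G] [IsTopologicalGroup G] [T2Space G]
    (hmin : TotallyMinimal G) (hp : Precompact G) (hs : ∃ n : ℕ, derivedSeries G n = ⊥) (ht : CountablyTight G) :
    TopologicalSpace.MetrizableSpace G := by
  refine H645.TM.main (G := G) ?_ ?_ ?_ hs
  · intro U hU
    obtain ⟨F, hF⟩ := hp U hU
    refine ⟨F, fun x => ?_⟩
    obtain ⟨g, hg, u, hu, hx⟩ := hF x
    exact ⟨g, hg, ⟨u, hu, hx.symm⟩⟩
  · intro N _ hN
    exact hmin N hN
  · intro A x hx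
    exact ht A x hx

end Pool.Agent.Results.MP_a4feb0_gt.PrecompactSolvable
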